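import Pool.Agent.H15.BM5

namespace Pool.Agent.Results.MP_a839f6_an.RegularZR

open Filter Topology MeasureTheory

theorem result (n : ℕ) (hn : 2 ≤ n) (K : Set (Fin n → ℂ)) (hK : IsCompact K)
    (V : (Fin n → ℂ) → ℝ) (hV : Continuous V)
    (hKV : ∀ z : Fin n → ℂ,
      IsLUB {t : ℝ | ∃ k : ℕ, 1 ≤ k ∧ ∃ p : MvPolynomial (Fin n) ℂ, p.totalDegree ≤ k ∧
        (∀ x ∈ K, ‖MvPolynomial.eval x p‖ ≤ 1) ∧
        t = Real.log ‖MvPolynomial.eval z p‖ / (k : ℝ)} (V z))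
    (ν : Measure (Fin n → ℂ)) [IsFiniteMeasure ν] (hν : ν Kᶜ = 0) (d : ℝ)
    (hd : Tendsto (fun k : ℕ =>
        (sSup {s : ℝ | ∃ z : {α : Fin n → Fin (k+1) // ∑ i, (α i : ℕ) ≤ k} → (Fin n → ℂ),
            (∀ a, z a ∈ K) ∧
            s = ‖Matrix.det (Matrix.of (fun a b : {α : Fin n → Fin (k+1) // ∑ i, (α i : ℕ) ≤ k} =>
                  ∏ i, z a i ^ ((b.1 i : ℕ))))‖}) ^
          ((1 : ℝ) / (∑ a : {α : Fin n → Fin (k+1) // ∑ i, (α i : ℕ) ≤ k},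
                        ∑ i, ((a.1 i : ℕ) : ℝ)))) atTop (𝓝 d))
    (hZ : Tendsto (fun k : ℕ =>
        (∫ z, ‖Matrix.det (Matrix.of (fun a b : {α : Fin n → Fin (k+1) // ∑ i, (α i : ℕ) ≤ k} =>
                  ∏ i, z a i ^ ((b.1 i : ℕ))))‖ ^ 2
            ∂(Measure.pi (fun _ : {α : Fin n → Fin (k+1) // ∑ i, (α i : ℕ) ≤ k} => ν))) ^
          ((1 : ℝ) / (2 * ∑ a : {α : Fin n → Fin (k+1) // ∑ i, (α i : ℕ) ≤ k},
                        ∑ i, ((a.1 i : ℕ) : ℝ)))) atTop (𝓝 d))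
    (p : ℕ → MvPolynomial (Fin n) ℂ) (hp : Tendsto (fun j => (p j).totalDegree) atTop atTop)
    (z : Fin n → ℂ) (ε : ℝ) (hε : 0 < ε) :
    ∀ᶠ j in atTop, ‖MvPolynomial.eval z (p j)‖ ≤ (Real.exp (V z) + ε) ^ (p j).totalDegree *
      Real.sqrt (∫ y, ‖MvPolynomial.eval y (p j)‖ ^ 2 ∂ν) := by
  have e0 := Real.exp_pos (V z)
  obtain ⟨a, a1, a2⟩ := exists_between (show 1 < (Real.exp (V z) + ε) / Real.exp (V z) by
    rw [one_lt_div e0]; linarith)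
  obtain ⟨C, hC⟩ := (Pool.Agent.H15.BM.final (by omega) hK hV hKV hν).2 ⟨d, hd, hZ⟩ (a - 1)
    (by linarith)
  rw [lt_div_iff₀ e0] at a2
  have p0 : 0 < a * Real.exp (V z) := by positivity
  filter_upwards [hp.eventually ((tendsto_pow_atTop_atTop_of_one_lt
    ((one_lt_div p0).2 a2)).eventually_ge_atTop (Real.sqrt C))] with j hj
  refine (Pool.Agent.H15.BM.Reg.bw hKV (p j) le_rfl (Real.sqrt C * a ^ (p j).totalDegree *
    Real.sqrt (∫ y, ‖MvPolynomial.eval y (p j)‖ ^ 2 ∂ν)) (fun x hx => ?_) z).trans ?_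
  · have := Real.le_sqrt_of_sq_le (hC _ (p j) le_rfl x hx)
    rwa [Real.sqrt_mul' _ (integral_nonneg fun _ => by positivity), Real.sqrt_mul' _
      (by rw [add_sub_cancel]; positivity), add_sub_cancel, mul_comm 2, pow_mul,
      Real.sqrt_sq (by positivity)] at this
  · rw [div_pow, le_div_iff₀ (by positivity), mul_pow] at hj
    rw [Real.exp_nat_mul, mul_right_comm, mul_assoc (Real.sqrt C)]
    gcongr

end Pool.Agent.Results.MP_a839f6_an.RegularZR
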